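import Pool.Agent.H466.TH.A8
import Pool.Agent.H466.HF.EC3
import Pool.Graph.R_seed8.H353R6.E9

/-!
# The gamma factor of weight 2
-/

set_option autoImplicit false

open Complex MeasureTheory Filter Topology Set
open scoped ComplexConjugate NNReal

namespace Pool.Agent.H466.HF

open H353.E

/-- the gamma factor of weight 2, in the variable `z = s - 1` -/
noncomputable def gamE (κ : ℝ) (z : ℂ) : ℂ := Gamma (z + 1) * ((κ : ℝ) : ℂ) ^ (-(z + 1))

/-- its logarithmic derivative -/
noncomputable def DE (κ : ℝ) (z : ℂ) : ℂ := logDeriv Gamma (z + 1) - (Real.log κ : ℝ)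

lemma gamW_E {κ : ℝ} (hκ : 0 < κ) : GamW 12 (gamE κ) (DE κ) := by
  have hκc : (κ : ℂ) ≠ 0 := by exact_mod_cast hκ.ne'
  have hG : ∀ s : ℂ, 0 < s.re → HasDerivAt Gamma (Gamma s * logDeriv Gamma s) s := by
    intro s hs
    have h1 : DifferentiableAt ℂ Gamma s := by
      apply differentiableAt_Gamma
      intro m hm
      have := congrArg re hm
      simp at this
      have h2 : (0 : ℝ) ≤ m := Nat.cast_nonneg m
      linarith
    have h2 := h1.hasDerivAt
    refine h2.congr_deriv ?_
    unfold logDeriv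
    simp only [Pi.div_apply]
    rw [mul_div_cancel₀]
    exact Gamma_ne_zero_of_re_pos hs
  refine ⟨by norm_num, fun z hz => ?_, fun z hz => ?_, fun z w hz hw => ?_, fun z hz => ?_⟩
  · have hs : 0 < (z + 1).re := by rw [add_re, one_re]; linarith
    have h1 := (hG (z + 1) hs).comp_add_const z 1
    have h2 : HasDerivAt (fun z : ℂ => ((κ : ℝ) : ℂ) ^ (-(z + 1)))
        (((κ : ℝ) : ℂ) ^ (-(z + 1)) * Complex.log κ * (-1)) z := by
      have h3 : HasDerivAt (fun z : ℂ => -(z + 1)) (-1) z :=
        ((hasDerivAt_id z).add_const 1).neg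
      exact h3.const_cpow (Or.inl hκc)
    have h3 := h1.mul h2
    have e : (fun z : ℂ => Gamma (z + 1) * ((κ : ℝ) : ℂ) ^ (-(z + 1))) = gamE κ := rfl
    refine (h3.congr_of_eventuallyEq (Eventually.of_forall fun z => rfl)).congr_deriv ?_
    unfold gamE DE
    rw [Complex.ofReal_log hκ.le]
    ring
  · unfold gamE
    apply mul_ne_zero
    · apply Gamma_ne_zero_of_re_pos
      rw [add_re, one_re]; linarith
    · rw [Ne, Complex.cpow_eq_zero_iff]
      exact fun h => hκc h.1
  · have hconv : Convex ℝ {z : ℂ | 0 ≤ z.re} := convex_halfSpace_re_ge 0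
    have h1 := hconv.norm_image_sub_le_of_norm_hasDerivWithin_le (f := DE κ)
      (f' := fun z => 1 / (z + 1) ^ 2 + 1 / ((z + 1) + 1) ^ 2 + ∑' n : ℕ, 1 / ((z + 1) + (n + 2)) ^ 2)
      (C := 12) (fun z hz => ?_) (fun z hz => ?_) (show w ∈ _ from hw) (show z ∈ _ from hz)
    · exact h1
    · have hz' : 0 ≤ z.re := hz
      have h2 := (hasDerivAt_dig (s := z + 1) (by rw [add_re, one_re]; linarith)).comp_add_const z 1
      exact (h2.sub_const _).hasDerivWithinAt
    · have hz' : 0 ≤ z.re := hz
      have h2 := dig_der_bound (s := z + 1) (by rw [add_re, one_re]; linarith)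
      refine h2.trans ?_
      rw [add_re, one_re, div_le_iff₀ (by linarith)]
      linarith
  · have h1 := dig_im (s := z + 1) (by rw [add_re, one_re]; linarith)
    unfold DE
    rw [sub_im, ofReal_im, sub_zero]
    linarith

/-- the size of the logarithmic derivative on the line -/
lemma DE_re {κ : ℝ} (t : ℝ) :
    |(DE κ ((t : ℂ) * I)).re - (Real.log (1 + |t|) - Real.log κ)| ≤ 9 := by
  set s : ℂ := (t : ℂ) * I + 1 with hs
  have hsr : s.re = 1 := by rw [hs]; simp
  have h1 := (Complex.abs_re_le_norm _).trans (dig_aux (s := s) (by rw [hsr]; norm_num))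
  rw [sub_re, Complex.log_re] at h1
  have e : s + 2 = 3 + (t : ℂ) * I := by rw [hs]; ring
  have h2 : ‖s + 2‖ ≤ 3 * (1 + |t|) := by
    rw [e]
    refine (norm_add_le _ _).trans ?_
    simp
    linarith [abs_nonneg t]
  have h3 : (1 + |t|) / 2 ≤ ‖s + 2‖ := by
    have h4 := Complex.abs_re_le_norm (s + 2)
    have h5 := Complex.abs_im_le_norm (s + 2)
    rw [e] at h4 h5 ⊢
    simp at h4 h5
    linarith
  have h0 : 0 < 1 + |t| := by positivity
  have h4 : Real.log ‖s + 2‖ ≤ Real.log (1 + |t|) + 2 := by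
    have h5 := Real.log_le_log (by linarith) h2
    rw [Real.log_mul (by norm_num) h0.ne'] at h5
    have h6 : Real.log 3 ≤ 2 := by
      have := Real.log_le_sub_one_of_pos (show (0 : ℝ) < 3 by norm_num)
      linarith
    linarith
  have h5 : Real.log (1 + |t|) - 2 ≤ Real.log ‖s + 2‖ := by
    have h5 := Real.log_le_log (by linarith) h3
    rw [Real.log_div h0.ne' (by norm_num)] at h5
    have h6 : Real.log 2 ≤ 2 := by
      have := Real.log_le_sub_one_of_pos (show (0 : ℝ) < 2 by norm_num)
      linarith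
    linarith
  unfold DE
  rw [sub_re, ofReal_re, ← hs]
  rw [abs_le] at h1 ⊢
  constructor <;> linarith [h1.1, h1.2]

end Pool.Agent.H466.HF
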