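import Mathlib

/-!
# The logarithmic derivative of a function with a logarithm of bounded real part
-/

set_option autoImplicit false

open Complex MeasureTheory Filter Topology Set Metric

namespace Pool.Agent.H466.TH

/-- logarithm on a disc -/
lemma exists_log {Q : ℂ → ℂ} {z0 : ℂ} {R b : ℝ} (hR : 0 < R)
    (hQ : DifferentiableOn ℂ Q (ball z0 R))
    (hlo : ∀ z ∈ ball z0 R, Real.exp (-b) ≤ ‖Q z‖) (hhi : ∀ z ∈ ball z0 R, ‖Q z‖ ≤ Real.exp b) :
    ∃ h : ℂ → ℂ, h z0 = 0 ∧ (∀ z ∈ ball z0 R, HasDerivAt h (deriv Q z / Q z) z) ∧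
      (∀ z ∈ ball z0 R, (h z).re ≤ 2 * b) := by
  have hne : ∀ z ∈ ball z0 R, Q z ≠ 0 := fun z hz h => by
    have h1 := hlo z hz
    rw [h, norm_zero] at h1
    exact absurd (Real.exp_pos (-b)) (not_lt.mpr h1)
  have hd : DifferentiableOn ℂ (fun z => deriv Q z / Q z) (ball z0 R) :=
    (hQ.deriv isOpen_ball).div hQ hne
  obtain ⟨h, h0, hh⟩ := (hd.isExactOn_ball).with_val_at z0 0
  refine ⟨h, h0, hh, ?_⟩
  have hz0 : z0 ∈ ball z0 R := mem_ball_self hR
  have hconst : ∀ z ∈ ball z0 R, Q z * cexp (-h z) = Q z0 := by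
    have hdiff : ∀ z ∈ ball z0 R, HasDerivAt (fun z => Q z * cexp (-h z)) 0 z := by
      intro z hz
      have h1 : HasDerivAt Q (deriv Q z) z := (hQ.differentiableAt (isOpen_ball.mem_nhds hz)).hasDerivAt
      have h2 := ((hh z hz).neg).cexp
      have h3 := h1.mul h2
      refine h3.congr_deriv ?_
      have := hne z hz
      field_simp
      ring
    intro z hz
    have h1 := (convex_ball z0 R).is_const_of_fderivWithin_eq_zero (𝕜 := ℂ)
      (f := fun z => Q z * cexp (-h z)) (fun z hz => (hdiff z hz).differentiableAt.differentiableWithinAt)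
      (fun z hz => by
        have h2 := ((hdiff z hz).hasFDerivAt).hasFDerivWithinAt (s := ball z0 R)
        rw [h2.fderivWithin (isOpen_ball.uniqueDiffWithinAt hz)]
        ext
        simp) hz hz0
    rw [h1, h0]
    simp
  intro z hz
  have h1 := hconst z hz
  have h2 : ‖Q z‖ * Real.exp (-(h z).re) = ‖Q z0‖ := by
    rw [← h1, norm_mul, Complex.norm_exp, neg_re]
  have h3 := hlo z0 hz0
  have h4 := hhi z hz
  have h5 : Real.exp (-b) ≤ Real.exp b * Real.exp (-(h z).re) := by
    rw [← h2] at h3
    exact h3.trans (mul_le_mul_of_nonneg_right h4 (Real.exp_pos _).le)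
  rw [← Real.exp_add] at h5
  have h6 := Real.exp_le_exp.mp h5
  linarith

/-- bounds for the logarithmic derivative and its derivative -/
theorem logder_bound {Q : ℂ → ℂ} {z0 : ℂ} {R b : ℝ} (hR : 0 < R) (hb : 0 < b)
    (hQ : DifferentiableOn ℂ Q (ball z0 R))
    (hlo : ∀ z ∈ ball z0 R, Real.exp (-b) ≤ ‖Q z‖) (hhi : ∀ z ∈ ball z0 R, ‖Q z‖ ≤ Real.exp b) :
    ‖deriv Q z0 / Q z0‖ ≤ 16 * b / R ∧ ‖deriv (fun z => deriv Q z / Q z) z0‖ ≤ 256 * b / R ^ 2 := by
  obtain ⟨h, h0, hh, hre⟩ := exists_log hR hQ hlo hhi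
  -- Borel-Caratheodory
  have hbound : ∀ z ∈ ball z0 (R / 2), ‖h z‖ ≤ 4 * b := by
    intro z hz
    have h1 := Complex.borelCaratheodory_zero (f := fun w => h (z0 + w)) (M := 2 * b) (R := R)
      (z := z - z0) (by positivity) ?_ ?_ hR ?_ ?_
    · simp only [add_sub_cancel] at h1
      rw [mem_ball, dist_eq_norm] at hz
      refine h1.trans ?_
      rw [div_le_iff₀ (by linarith)]
      nlinarith [norm_nonneg (z - z0)]
    · intro w hw
      have hw' : z0 + w ∈ ball z0 R := by
        rw [mem_ball, dist_eq_norm, add_sub_cancel_left]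
        simpa using hw
      exact ((hh _ hw').differentiableAt.comp w (by fun_prop)).differentiableWithinAt
    · intro w hw
      have hw' : z0 + w ∈ ball z0 R := by
        rw [mem_ball, dist_eq_norm, add_sub_cancel_left]
        simpa using hw
      exact hre _ hw'
    · rw [mem_ball, dist_eq_norm] at hz
      rw [mem_ball, dist_zero_right]
      linarith
    · simpa using h0
  have hsub : ball z0 (R / 2) ⊆ ball z0 R := ball_subset_ball (by linarith)
  -- first derivative on the disc of radius R/4
  have hder : ∀ z ∈ closedBall z0 (R / 8), ‖deriv Q z / Q z‖ ≤ 16 * b / R := by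
    intro z hz
    have h1 : deriv h z = deriv Q z / Q z := by
      refine (hh z ?_).deriv
      rw [mem_closedBall] at hz
      rw [mem_ball]
      linarith
    rw [← h1]
    have h2 : closedBall z (R / 4) ⊆ ball z0 (R / 2) := by
      intro w hw
      rw [mem_closedBall] at hw hz
      rw [mem_ball]
      have := dist_triangle w z z0
      linarith
    have h3 : DiffContOnCl ℂ h (ball z (R / 4)) := by
      refine DifferentiableOn.diffContOnCl ?_
      rw [closure_ball z (by positivity)]
      intro w hw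
      exact (hh w (hsub (h2 hw))).differentiableAt.differentiableWithinAt
    have h4 := Complex.norm_deriv_le_of_forall_mem_sphere_norm_le (c := z) (R := R / 4) (C := 4 * b)
      (by positivity) h3 (fun w hw => hbound w (h2 (sphere_subset_closedBall hw)))
    refine h4.trans (le_of_eq ?_)
    field_simp
    ring
  refine ⟨hder z0 (mem_closedBall_self (by positivity)), ?_⟩
  have hd : DifferentiableOn ℂ (fun z => deriv Q z / Q z) (ball z0 R) := by
    have hne : ∀ z ∈ ball z0 R, Q z ≠ 0 := fun z hz h => by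
      have h1 := hlo z hz
      rw [h, norm_zero] at h1
      exact absurd (Real.exp_pos (-b)) (not_lt.mpr h1)
    exact (hQ.deriv isOpen_ball).div hQ hne
  have h3 : DiffContOnCl ℂ (fun z => deriv Q z / Q z) (ball z0 (R / 8)) := by
    refine DifferentiableOn.diffContOnCl ?_
    rw [closure_ball z0 (by positivity)]
    exact hd.mono (closedBall_subset_ball (by linarith))
  have h4 := Complex.norm_deriv_le_of_forall_mem_sphere_norm_le (c := z0) (R := R / 8)
    (C := 16 * b / R) (by positivity) h3 (fun w hw => hder w (sphere_subset_closedBall hw))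
  refine h4.trans ?_
  have e : 16 * b / R / (R / 8) = 128 * b / R ^ 2 := by
    field_simp
    ring
  rw [e]
  exact div_le_div_of_nonneg_right (by linarith) (by positivity)

end Pool.Agent.H466.TH
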