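import Pool.Agent.H466.TH.A2
import Pool.Agent.H466.HF.Phi1

/-!
# Contour shift (tilt) for the Gaussian transform of a kernel transform
-/

set_option autoImplicit false

open Complex MeasureTheory Filter Topology Set
open scoped ComplexConjugate

namespace Pool.Agent.H466.HF

variable {g : ℝ → ℂ} {A c : ℝ}

/-- the inner Gaussian integral, complex argument -/
lemma gauss_inner' {lam : ℝ} (hlam : 0 < lam) (w : ℂ) :
    ∫ v : ℝ, cexp ((v : ℂ) * w) * (Real.exp (-v ^ 2 / (4 * lam)) : ℂ) =
      (Real.sqrt (Real.pi * (4 * lam)) : ℂ) * cexp (lam * w ^ 2) := by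
  have hb : 0 < ((1 / (4 * lam) : ℝ) : ℂ).re := by
    rw [ofReal_re]; positivity
  have h := fourierIntegral_gaussian hb (-I * w)
  have e1 : (fun v : ℝ => cexp ((v : ℂ) * w) * (Real.exp (-v ^ 2 / (4 * lam)) : ℂ)) =
      fun v : ℝ => cexp (I * (-I * w) * v) * cexp (-((1 / (4 * lam) : ℝ) : ℂ) * v ^ 2) := by
    funext v
    congr 1
    · congr 1
      have : I * (-I * w) = w := by
        rw [← mul_assoc, mul_neg, I_mul_I]
        ring
      rw [this]
      ring
    · rw [ofReal_exp]
      congr 1
      push_cast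
      ring
  rw [e1, h]
  congr 1
  · rw [← ofReal_div]
    have : (1 / 2 : ℂ) = ((1 / 2 : ℝ) : ℂ) := by push_cast; rfl
    rw [this, ← ofReal_cpow (by positivity), ← Real.sqrt_eq_rpow]
    congr 2
    field_simp
  · congr 1
    have hl : (lam : ℂ) ≠ 0 := by exact_mod_cast hlam.ne'
    rw [mul_pow, neg_sq, I_sq]
    push_cast
    field_simp

/-- integrability on the plane -/
lemma Kern.integrable_uncurry (k : Kern g A c) {lam : ℝ} (hlam : 0 < lam) (s : ℂ) :
    Integrable (Function.uncurry fun (v u : ℝ) =>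
      (g u * cexp (s * u)) * (cexp ((v : ℂ) * u) * (Real.exp (-v ^ 2 / (4 * lam)) : ℂ)))
      ((volume : Measure ℝ).prod volume) := by
  have hc : Continuous (Function.uncurry fun (v u : ℝ) =>
    (g u * cexp (s * u)) * (cexp ((v : ℂ) * u) * (Real.exp (-v ^ 2 / (4 * lam)) : ℂ))) := by
    have := k.cont
    unfold Function.uncurry
    fun_prop
  rw [← integrable_swap_iff]
  have hc' : Continuous ((Function.uncurry fun (v u : ℝ) =>
    (g u * cexp (s * u)) * (cexp ((v : ℂ) * u) * (Real.exp (-v ^ 2 / (4 * lam)) : ℂ))) ∘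
      Prod.swap) := hc.comp continuous_swap
  refine (integrable_prod_iff hc'.aestronglyMeasurable).mpr ⟨Eventually.of_forall fun u => ?_, ?_⟩
  · simp only [Function.comp, Prod.swap, Function.uncurry]
    refine Integrable.const_mul ?_ _
    have hn : Integrable (fun v : ℝ => Real.exp (-v ^ 2 / (4 * lam) + 2 * lam * u * v / (2 * lam))) := by
      have h3 := (ga_integrable (k := 4 * lam) (by positivity)).comp_sub_right (2 * lam * u)
      refine (h3.const_mul (Real.exp (lam * u ^ 2))).congr (Eventually.of_forall fun v => ?_)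
      simp only
      unfold ga
      rw [← Real.exp_add]
      congr 1
      field_simp
      ring
    refine hn.mono' (Continuous.aestronglyMeasurable (by fun_prop)) (Eventually.of_forall fun v => ?_)
    rw [norm_mul, Complex.norm_exp, Complex.norm_real, Real.norm_eq_abs, abs_of_pos (Real.exp_pos _),
      ← Real.exp_add, ← ofReal_mul, ofReal_re]
    apply Real.exp_le_exp.mpr
    have : 2 * lam * u * v / (2 * lam) = v * u := by field_simp
    rw [this]
    linarith
  · simp only [Function.comp, Prod.swap, Function.uncurry]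
    have h4 : ∀ u : ℝ, ∫ v : ℝ, ‖(g u * cexp (s * u)) *
        (cexp ((v : ℂ) * u) * (Real.exp (-v ^ 2 / (4 * lam)) : ℂ))‖ =
        Real.sqrt (Real.pi * (4 * lam)) * (‖g u‖ * Real.exp (s.re * u + lam * u ^ 2)) := by
      intro u
      have h5 : ∀ v : ℝ, ‖(g u * cexp (s * u)) *
          (cexp ((v : ℂ) * u) * (Real.exp (-v ^ 2 / (4 * lam)) : ℂ))‖ =
          (‖g u‖ * Real.exp (s.re * u)) * Real.exp (v * u + -v ^ 2 / (4 * lam)) := by
        intro v
        rw [norm_mul, norm_mul, norm_mul, Complex.norm_exp, Complex.norm_exp, Complex.norm_real,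
          Real.norm_eq_abs, abs_of_pos (Real.exp_pos _), Real.exp_add, ← ofReal_mul, ofReal_re,
          mul_comm s, re_ofReal_mul, mul_comm u]
      simp_rw [h5]
      rw [integral_const_mul]
      have h6 : ∫ v : ℝ, Real.exp (v * u + -v ^ 2 / (4 * lam)) =
          Real.sqrt (Real.pi * (4 * lam)) * Real.exp (lam * u ^ 2) := by
        have h7 := gauss_inner hlam u
        have h8 : ∫ v : ℝ, cexp ((v : ℂ) * u) * (Real.exp (-v ^ 2 / (4 * lam)) : ℂ) =
            ((∫ v : ℝ, Real.exp (v * u + -v ^ 2 / (4 * lam)) : ℝ) : ℂ) := by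
          rw [← integral_complex_ofReal]
          refine integral_congr_ae (Eventually.of_forall fun v => ?_)
          simp only
          rw [Real.exp_add]
          push_cast
          rfl
        rw [h8] at h7
        exact_mod_cast h7
      rw [h6, Real.exp_add]
      ring
    simp_rw [h4]
    refine Integrable.const_mul ?_ _
    obtain ⟨K, hK, h⟩ := k.term |s.re| lam
    refine Integrable.mono' (gauss_int.const_mul K) ?_ (Eventually.of_forall fun u => ?_)
    · have := k.cont
      refine Continuous.aestronglyMeasurable ?_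
      fun_prop
    · rw [Real.norm_of_nonneg (by positivity)]
      refine le_trans ?_ (h u)
      apply mul_le_mul_of_nonneg_left _ (norm_nonneg _)
      apply Real.exp_le_exp.mpr
      have : s.re * u ≤ |s.re| * |u| := by
        rw [← abs_mul]
        exact le_abs_self _
      linarith

/-- **the tilted Gaussian transform** -/
lemma Kern.tilt (k : Kern g A c) {lam : ℝ} (hlam : 0 < lam) (θ : ℝ) (s : ℂ) :
    ∫ v : ℝ, (LL g 0 (s + v) * (Real.exp (-v ^ 2 / (4 * lam)) : ℂ)) * cexp (-(I * θ * v)) =
      (Real.sqrt (Real.pi * (4 * lam)) : ℂ) * cexp (-(lam * θ ^ 2)) *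
        LL g lam (s - 2 * I * lam * θ) := by
  have h1 : ∀ v : ℝ, (LL g 0 (s + v) * (Real.exp (-v ^ 2 / (4 * lam)) : ℂ)) * cexp (-(I * θ * v)) =
      ∫ u : ℝ, ((g u * cexp (s * u)) * (cexp ((v : ℂ) * u) *
        (Real.exp (-v ^ 2 / (4 * lam)) : ℂ))) * cexp (-(I * θ * v)) := by
    intro v
    rw [LL_zero, ← integral_mul_const, ← integral_mul_const]
    refine integral_congr_ae (Eventually.of_forall fun u => ?_)
    simp only
    rw [add_mul, Complex.exp_add]
    ring
  simp_rw [h1]
  have hint : Integrable (Function.uncurry fun (v u : ℝ) =>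
      ((g u * cexp (s * u)) * (cexp ((v : ℂ) * u) *
        (Real.exp (-v ^ 2 / (4 * lam)) : ℂ))) * cexp (-(I * θ * v)))
      ((volume : Measure ℝ).prod volume) := by
    refine (k.integrable_uncurry hlam s).mono ?_ (Eventually.of_forall fun p => ?_)
    · have := k.cont
      refine Continuous.aestronglyMeasurable ?_
      unfold Function.uncurry
      fun_prop
    · obtain ⟨v, u⟩ := p
      simp only [Function.uncurry]
      rw [norm_mul _ (cexp (-(I * θ * v)))]
      have : ‖cexp (-(I * θ * v))‖ = 1 := by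
        have e : -(I * (θ : ℂ) * v) = ((-(θ * v) : ℝ) : ℂ) * I := by push_cast; ring
        rw [e, Complex.norm_exp_ofReal_mul_I]
      rw [this, mul_one]
  rw [integral_integral_swap hint]
  have h2 : ∀ u : ℝ, ∫ v : ℝ, ((g u * cexp (s * u)) * (cexp ((v : ℂ) * u) *
      (Real.exp (-v ^ 2 / (4 * lam)) : ℂ))) * cexp (-(I * θ * v)) =
      ((Real.sqrt (Real.pi * (4 * lam)) : ℂ) * cexp (-(lam * θ ^ 2))) *
        (g u * cexp ((lam : ℂ) * (u : ℂ) ^ 2 + (s - 2 * I * lam * θ) * u)) := by
    intro u
    have h3 : ∀ v : ℝ, ((g u * cexp (s * u)) * (cexp ((v : ℂ) * u) *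
        (Real.exp (-v ^ 2 / (4 * lam)) : ℂ))) * cexp (-(I * θ * v)) =
        (g u * cexp (s * u)) * (cexp ((v : ℂ) * ((u : ℂ) - I * θ)) *
          (Real.exp (-v ^ 2 / (4 * lam)) : ℂ)) := by
      intro v
      rw [mul_sub, sub_eq_add_neg, Complex.exp_add]
      have : -((v : ℂ) * (I * θ)) = -(I * θ * v) := by ring
      rw [this]
      ring
    simp_rw [h3]
    rw [integral_const_mul, gauss_inner' hlam]
    have e : cexp ((lam : ℂ) * (u : ℂ) ^ 2 + (s - 2 * I * lam * θ) * u) * cexp (-(lam * θ ^ 2)) =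
        cexp (s * u) * cexp (lam * ((u : ℂ) - I * θ) ^ 2) := by
      rw [← Complex.exp_add, ← Complex.exp_add]
      congr 1
      have hI : I ^ 2 = -1 := I_sq
      linear_combination (-(lam * θ ^ 2) : ℂ) * hI
    calc g u * cexp (s * u) * ((Real.sqrt (Real.pi * (4 * lam)) : ℂ) *
          cexp (lam * ((u : ℂ) - I * θ) ^ 2))
        = (Real.sqrt (Real.pi * (4 * lam)) : ℂ) * g u * (cexp (s * u) *
          cexp (lam * ((u : ℂ) - I * θ) ^ 2)) := by ring
      _ = _ := by rw [← e]; ring
  simp_rw [h2]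
  rw [integral_const_mul]
  rfl

end Pool.Agent.H466.HF
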