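import Pool.Agent.H466.TH.A3

/-!
# Tilted saddle points and the zeros of the Gaussian transform, window version
-/

set_option autoImplicit false

open Complex MeasureTheory Filter Topology Set
open scoped ComplexConjugate NNReal

namespace Pool.Agent.H466.HF

/-- data in a window around the height `t`, to the right of the critical line `Re z = 0` -/
structure Win (F P : ℂ → ℂ) (t v1 ω M Θ B1 W0 lam : ℝ) : Prop where
  cont : Continuous F
  der : ∀ z : ℂ, v1 ≤ z.re → |z.im - t| ≤ ω → HasDerivAt F (F z * P z) z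
  lip : ∀ z w : ℂ, v1 ≤ z.re → |z.im - t| ≤ ω → v1 ≤ w.re → |w.im - t| ≤ ω →
    ‖P z - P w‖ ≤ M * ‖z - w‖
  im : ∀ z : ℂ, v1 ≤ z.re → |z.im - t| ≤ ω → |(P z).im| ≤ Θ
  left : ∀ v τ : ℝ, 0 ≤ v → v ≤ v1 → |τ - t| ≤ ω →
    ‖F ((v : ℂ) + (τ : ℂ) * I)‖ ≤ B1 * ‖F ((v1 : ℂ) + (τ : ℂ) * I)‖
  ne : ∀ τ : ℝ, |τ - t| ≤ ω → F ((v1 : ℂ) + (τ : ℂ) * I) ≠ 0
  re : ∀ τ : ℝ, |τ - t| ≤ ω → W0 ≤ 2 * lam * (P ((v1 : ℂ) + (τ : ℂ) * I)).re
  pos : 0 < v1
  Mnn : 0 ≤ M
  Bnn : 0 ≤ B1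

/-- numerical conditions -/
structure NumW (v1 ω M Θ B1 W0 lam q η x1 : ℝ) : Prop where
  lam0 : 0 < lam
  q0 : 0 < q
  q1 : q ≤ 1
  a : 128 * (lam * M) ≤ q
  b : 6 * Real.exp (-(v1 ^ 2 / (32 * lam))) ≤ q
  c : lam * Real.log (8 / q) ≤ v1 * x1
  x0 : 0 < x1
  x2 : x1 ≤ η / 4
  e0 : 0 < η
  e1 : η ≤ v1
  d : 2 * v1 + η ≤ W0
  e : 160 * (lam * M * v1) ≤ η
  f : 8 * (v1 * B1 * Real.exp (-(W0 * η / (16 * lam)))) ≤ q * Real.sqrt lam
  g : 20 * Real.sqrt lam ≤ v1 * q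
  tc : q ≤ Real.exp (-(lam * (4 * M * x1) ^ 2))
  om0 : 0 ≤ ω
  om : 2 * lam * Θ ≤ ω
  om2 : 2 * lam * M * ω ≤ η / 8

variable {F P : ℂ → ℂ} {t v1 ω M Θ B1 W0 lam q η x1 : ℝ}

lemma cz_re (v τ : ℝ) : ((v : ℂ) + (τ : ℂ) * I).re = v := by simp
lemma cz_im (v τ : ℝ) : ((v : ℂ) + (τ : ℂ) * I).im = τ := by simp

/-- the tilted saddle point -/
lemma tiltpt (N : NumW v1 ω M Θ B1 W0 lam q η x1) (C : Win F P t v1 ω M Θ B1 W0 lam) {x : ℝ}
    (hx : 0 ≤ x) :
    ∃ θ v0 : ℝ, |2 * lam * θ| ≤ ω ∧ v1 < v0 ∧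
      2 * lam * (P ((v0 : ℂ) + ((t + 2 * lam * θ : ℝ) : ℂ) * I)).re = v0 - x ∧
      (P ((v0 : ℂ) + ((t + 2 * lam * θ : ℝ) : ℂ) * I)).im = θ := by
  have hlam := N.lam0
  have hM := C.Mnn
  have hv1 := C.pos
  have he0 := N.e0
  have hq1 := N.q1
  have ha := N.a
  have hω := N.om0
  have hd := N.d
  set κ : ℝ := 2 * lam * M with hκ
  have hκ0 : 0 ≤ κ := by positivity
  have hκ1 : κ ≤ 1 / 64 := by rw [hκ]; linarith
  have hκω : κ * ω ≤ η / 8 := N.om2
  have ht0 : |t - t| ≤ ω := by simpa using hω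
  set W : ℝ := 2 * lam * (P ((v1 : ℂ) + (t : ℂ) * I)).re with hW
  have hW0 : W0 ≤ W := C.re t ht0
  set V : ℝ := v1 + 2 * (x + W + κ * ω) with hV
  have hκω0 : 0 ≤ κ * ω := mul_nonneg hκ0 hω
  have hVv : v1 ≤ V := by rw [hV]; linarith
  set R : Set ℂ := {z | (v1 ≤ z.re ∧ z.re ≤ V) ∧ |z.im - t| ≤ ω} with hR
  set Φ : ℂ → ℂ := fun z => (x : ℂ) + (t : ℂ) * I + ((2 * lam : ℝ) : ℂ) * P z with hΦ
  have hΦre : ∀ z, (Φ z).re = x + 2 * lam * (P z).re := by
    intro z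
    simp only [hΦ, add_re, ofReal_re, re_ofReal_mul, I_re, mul_zero, add_zero]
  have hΦim : ∀ z, (Φ z).im = t + 2 * lam * (P z).im := by
    intro z
    simp only [hΦ, add_im, ofReal_im, im_ofReal_mul, I_im, mul_one, zero_add]
  have hRc : IsClosed R := by
    rw [hR]
    refine IsClosed.inter (IsClosed.inter ?_ ?_) ?_
    · exact isClosed_le continuous_const Complex.continuous_re
    · exact isClosed_le Complex.continuous_re continuous_const
    · exact isClosed_le ((Complex.continuous_im.sub continuous_const).abs) continuous_const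
  -- bounds for the real part
  have hbd : ∀ z ∈ R, |2 * lam * (P z).re - 2 * lam * (P ((v1 : ℂ) + (z.im : ℂ) * I)).re| ≤
      κ * (V - v1) := by
    intro z hz
    have h1 := C.lip z ((v1 : ℂ) + (z.im : ℂ) * I) hz.1.1 hz.2 (by rw [cz_re]) (by
      rw [cz_im]; exact hz.2)
    have h2 : z - ((v1 : ℂ) + (z.im : ℂ) * I) = ((z.re - v1 : ℝ) : ℂ) := by
      apply Complex.ext <;> simp
    rw [h2, Complex.norm_real, Real.norm_eq_abs, abs_of_nonneg (by linarith [hz.1.1])] at h1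
    have h3 := (Complex.abs_re_le_norm _).trans h1
    rw [sub_re] at h3
    rw [← mul_sub, abs_mul, abs_of_pos (by positivity : 0 < 2 * lam)]
    calc 2 * lam * |(P z).re - (P ((v1 : ℂ) + (z.im : ℂ) * I)).re|
        ≤ 2 * lam * (M * (z.re - v1)) := mul_le_mul_of_nonneg_left h3 (by positivity)
      _ = κ * (z.re - v1) := by rw [hκ]; ring
      _ ≤ κ * (V - v1) := mul_le_mul_of_nonneg_left (by linarith [hz.1.2]) hκ0
  have hbd2 : ∀ τ : ℝ, |τ - t| ≤ ω → 2 * lam * (P ((v1 : ℂ) + (τ : ℂ) * I)).re ≤ W + κ * ω := by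
    intro τ hτ
    have h1 := C.lip ((v1 : ℂ) + (τ : ℂ) * I) ((v1 : ℂ) + (t : ℂ) * I) (by rw [cz_re])
      (by rw [cz_im]; exact hτ) (by rw [cz_re]) (by rw [cz_im]; exact ht0)
    have h2 : ((v1 : ℂ) + (τ : ℂ) * I) - ((v1 : ℂ) + (t : ℂ) * I) = ((τ - t : ℝ) : ℂ) * I := by
      push_cast; ring
    rw [h2, norm_mul, Complex.norm_real, Real.norm_eq_abs, norm_I, mul_one] at h1
    have h3 := (abs_le.mp ((Complex.abs_re_le_norm _).trans h1)).2
    rw [sub_re] at h3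
    have h4 : M * |τ - t| ≤ M * ω := mul_le_mul_of_nonneg_left hτ hM
    have h5 : 2 * lam * ((P ((v1 : ℂ) + (τ : ℂ) * I)).re - (P ((v1 : ℂ) + (t : ℂ) * I)).re) ≤
        2 * lam * (M * ω) := mul_le_mul_of_nonneg_left (h3.trans h4) (by positivity)
    have e : 2 * lam * (M * ω) = κ * ω := by rw [hκ]; ring
    rw [e] at h5
    rw [hW]
    linarith
  have hlow : ∀ z ∈ R, v1 < (Φ z).re := by
    intro z hz
    rw [hΦre]
    have h1 := (abs_le.mp (hbd z hz)).1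
    have h2 := C.re z.im hz.2
    have h3 : κ * (V - v1) = 2 * κ * (x + W + κ * ω) := by rw [hV]; ring
    -- use the bound on W
    have h4 : W - κ * ω ≤ 2 * lam * (P ((v1 : ℂ) + (z.im : ℂ) * I)).re := by
      have h5 := C.lip ((v1 : ℂ) + (z.im : ℂ) * I) ((v1 : ℂ) + (t : ℂ) * I) (by rw [cz_re])
        (by rw [cz_im]; exact hz.2) (by rw [cz_re]) (by rw [cz_im]; exact ht0)
      have h6 : ((v1 : ℂ) + (z.im : ℂ) * I) - ((v1 : ℂ) + (t : ℂ) * I) = ((z.im - t : ℝ) : ℂ) * I := by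
        push_cast; ring
      rw [h6, norm_mul, Complex.norm_real, Real.norm_eq_abs, norm_I, mul_one] at h5
      have h7 := (abs_le.mp ((Complex.abs_re_le_norm _).trans h5)).1
      rw [sub_re] at h7
      have h8 : M * |z.im - t| ≤ M * ω := mul_le_mul_of_nonneg_left hz.2 hM
      have h9 : 2 * lam * (-(M * ω)) ≤ 2 * lam * ((P ((v1 : ℂ) + (z.im : ℂ) * I)).re -
          (P ((v1 : ℂ) + (t : ℂ) * I)).re) := mul_le_mul_of_nonneg_left (by linarith) (by positivity)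
      have e : 2 * lam * (-(M * ω)) = -(κ * ω) := by rw [hκ]; ring
      rw [e] at h9
      rw [hW]
      linarith
    have h5 : κ * (x + W + κ * ω) ≤ 1 / 64 * (x + W + κ * ω) := by
      apply mul_le_mul_of_nonneg_right hκ1
      linarith
    linarith
  have hmaps : MapsTo Φ R R := by
    intro z hz
    refine ⟨⟨(hlow z hz).le, ?_⟩, ?_⟩
    · rw [hΦre]
      have h1 := (abs_le.mp (hbd z hz)).2
      have h2 := hbd2 z.im hz.2
      have h3 : κ * (V - v1) = 2 * κ * (x + W + κ * ω) := by rw [hV]; ring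
      have h5 : κ * (x + W + κ * ω) ≤ 1 / 64 * (x + W + κ * ω) := by
        apply mul_le_mul_of_nonneg_right hκ1
        linarith
      rw [hV]
      linarith
    · rw [hΦim, add_sub_cancel_left, abs_mul, abs_of_pos (by positivity : 0 < 2 * lam)]
      have h1 := C.im z hz.1.1 hz.2
      exact (mul_le_mul_of_nonneg_left h1 (by positivity)).trans N.om
  have hcontr : ContractingWith (Real.toNNReal κ) (hmaps.restrict Φ R R) := by
    refine ⟨?_, ?_⟩
    · rw [← NNReal.coe_lt_coe, Real.coe_toNNReal _ hκ0]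
      simp only [NNReal.coe_one]
      linarith
    · refine LipschitzWith.of_dist_le_mul fun z w => ?_
      rw [Real.coe_toNNReal _ hκ0, Subtype.dist_eq, Subtype.dist_eq, MapsTo.val_restrict_apply,
        MapsTo.val_restrict_apply, dist_eq_norm, dist_eq_norm]
      have e : Φ z - Φ w = ((2 * lam : ℝ) : ℂ) * (P z - P w) := by simp only [hΦ]; ring
      rw [e, norm_mul, Complex.norm_real, Real.norm_eq_abs, abs_of_pos (by positivity)]
      have h1 := C.lip z w z.2.1.1 z.2.2 w.2.1.1 w.2.2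
      calc 2 * lam * ‖P z - P w‖ ≤ 2 * lam * (M * ‖(z : ℂ) - w‖) :=
            mul_le_mul_of_nonneg_left h1 (by positivity)
        _ = κ * ‖(z : ℂ) - w‖ := by rw [hκ]; ring
  have hstart : ((v1 : ℂ) + (t : ℂ) * I) ∈ R := by
    refine ⟨⟨by rw [cz_re], by rw [cz_re]; exact hVv⟩, by rw [cz_im]; exact ht0⟩
  obtain ⟨z0, hz0, hfix, -, -⟩ := ContractingWith.exists_fixedPoint' hRc.isComplete hmaps hcontr
    hstart (edist_ne_top _ _)
  have hfix' : Φ z0 = z0 := hfix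
  have hre : x + 2 * lam * (P z0).re = z0.re := by rw [← hΦre, hfix']
  have him : t + 2 * lam * (P z0).im = z0.im := by rw [← hΦim, hfix']
  have hz0' : (z0.re : ℂ) + ((t + 2 * lam * (P z0).im : ℝ) : ℂ) * I = z0 := by
    rw [him]
    exact re_add_im z0
  refine ⟨(P z0).im, z0.re, ?_, ?_, ?_, ?_⟩
  · have h1 := hz0.2
    rw [← him, add_sub_cancel_left] at h1
    exact h1
  · have := hlow z0 hz0
    rwa [hfix'] at this
  · rw [hz0']
    linarith
  · rw [hz0']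

/-- the tilted function on the horizontal line -/
noncomputable def tf (F : ℂ → ℂ) (τ θ v : ℝ) : ℂ := F ((v : ℂ) + (τ : ℂ) * I) * cexp (-(I * θ * v))

/-- its logarithmic derivative -/
noncomputable def tp (P : ℂ → ℂ) (τ θ v : ℝ) : ℂ := P ((v : ℂ) + (τ : ℂ) * I) - I * θ

lemma norm_tw (θ v : ℝ) : ‖cexp (-(I * (θ : ℂ) * v))‖ = 1 := by
  have e : -(I * (θ : ℂ) * v) = ((-(θ * v) : ℝ) : ℂ) * I := by push_cast; ring
  rw [e, Complex.norm_exp_ofReal_mul_I]

lemma norm_tf (F : ℂ → ℂ) (τ θ v : ℝ) : ‖tf F τ θ v‖ = ‖F ((v : ℂ) + (τ : ℂ) * I)‖ := by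
  unfold tf
  rw [norm_mul, norm_tw, mul_one]

lemma tp_re (P : ℂ → ℂ) (τ θ v : ℝ) : (tp P τ θ v).re = (P ((v : ℂ) + (τ : ℂ) * I)).re := by
  unfold tp
  simp

lemma tp_im (P : ℂ → ℂ) (τ θ v : ℝ) : (tp P τ θ v).im = (P ((v : ℂ) + (τ : ℂ) * I)).im - θ := by
  unfold tp
  simp

lemma core_tilt (C : Win F P t v1 ω M Θ B1 W0 lam) {τ : ℝ} (hτ : |τ - t| ≤ ω) (θ : ℝ) :
    Core (tf F τ θ) (tp P τ θ) v1 M (Θ + |θ|) B1 := by
  have hline : ∀ v : ℝ, HasDerivAt (fun v : ℝ => (v : ℂ) + (τ : ℂ) * I) 1 v := fun v => by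
    have := (hasDerivAt_id v).ofReal_comp.add_const ((τ : ℂ) * I)
    simpa using this
  refine ⟨?_, fun v hv => ?_, fun v w hv hw => ?_, fun v hv => ?_, fun v h0 h1 => ?_, ?_, C.pos,
    C.Mnn, C.Bnn⟩
  · unfold tf
    have := C.cont
    fun_prop
  · have h1 := C.der ((v : ℂ) + (τ : ℂ) * I) (by rw [cz_re]; exact hv) (by rw [cz_im]; exact hτ)
    have h2 := h1.comp v (hline v)
    rw [mul_one] at h2
    have h3 : HasDerivAt (fun v : ℝ => -(I * (θ : ℂ) * v)) (-(I * (θ : ℂ) * 1)) v := by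
      have h0 := (hasDerivAt_id v).ofReal_comp.const_mul (-(I * (θ : ℂ)))
      have e : (fun v : ℝ => -(I * (θ : ℂ) * v)) = fun v : ℝ => -(I * (θ : ℂ)) * ((id v : ℝ) : ℂ) := by
        funext v
        simp only [id]
        ring
      rw [e]
      refine h0.congr_deriv ?_
      push_cast
      ring
    have h4 := h2.mul h3.cexp
    refine h4.congr_deriv ?_
    unfold tf tp
    simp only [Function.comp]
    ring
  · have h1 := C.lip ((v : ℂ) + (τ : ℂ) * I) ((w : ℂ) + (τ : ℂ) * I) (by rw [cz_re]; exact hv)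
      (by rw [cz_im]; exact hτ) (by rw [cz_re]; exact hw) (by rw [cz_im]; exact hτ)
    have e1 : tp P τ θ v - tp P τ θ w = P ((v : ℂ) + (τ : ℂ) * I) - P ((w : ℂ) + (τ : ℂ) * I) := by
      unfold tp; ring
    have e2 : (v : ℂ) + (τ : ℂ) * I - ((w : ℂ) + (τ : ℂ) * I) = ((v - w : ℝ) : ℂ) := by
      push_cast; ring
    rw [e1]
    rw [e2, Complex.norm_real, Real.norm_eq_abs] at h1
    exact h1
  · rw [tp_im]
    have h1 := C.im ((v : ℂ) + (τ : ℂ) * I) (by rw [cz_re]; exact hv) (by rw [cz_im]; exact hτ)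
    exact (abs_sub _ _).trans (add_le_add h1 le_rfl)
  · rw [norm_tf, norm_tf]
    exact C.left v τ h0 h1 hτ
  · unfold tf
    exact mul_ne_zero (C.ne τ hτ) (Complex.exp_ne_zero _)

lemma numT_tilt (N : NumW v1 ω M Θ B1 W0 lam q η x1) (C : Win F P t v1 ω M Θ B1 W0 lam) {τ : ℝ}
    (hτ : |τ - t| ≤ ω) (θ : ℝ) : NumT (tp P τ θ) v1 M B1 lam q η x1 := by
  have hW := C.re τ hτ
  have hlam := N.lam0
  refine ⟨N.lam0, N.q0, N.q1, N.a, N.b, N.c, N.x0, N.x2, N.e0, N.e1, ?_, N.e, ?_, N.g⟩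
  · rw [tp_re]
    exact N.d.trans hW
  · rw [tp_re]
    refine le_trans ?_ N.f
    have h1 := C.Bnn
    have h2 := C.pos
    apply mul_le_mul_of_nonneg_left _ (by norm_num)
    apply mul_le_mul_of_nonneg_left _ (by positivity)
    apply Real.exp_le_exp.mpr
    rw [neg_le_neg_iff]
    apply div_le_div_of_nonneg_right _ (by positivity)
    exact mul_le_mul_of_nonneg_right hW N.e0.le

/-- closeness of the saddle points -/
lemma sad_close (N : NumW v1 ω M Θ B1 W0 lam q η x1) (C : Win F P t v1 ω M Θ B1 W0 lam) {τ : ℝ}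
    (hτ : |τ - t| ≤ ω) (θ : ℝ) {x y v0 w0 : ℝ} (h1 : Sad (tp P τ θ) v1 lam x v0)
    (h2 : Sad (tp P τ θ) v1 lam y w0) (h3 : (tp P τ θ v0).im = 0) :
    |(tp P τ θ w0).im| ≤ 2 * M * |y - x| := by
  have hlam := N.lam0
  have hM := C.Mnn
  have ha := N.a
  have hq1 := N.q1
  have hcore := core_tilt C hτ θ
  have h4 := hcore.lip w0 v0 h2.lt.le h1.lt.le
  have h5 := (Complex.abs_re_le_norm _).trans h4
  have h6 := (Complex.abs_im_le_norm _).trans h4
  rw [sub_re] at h5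
  rw [sub_im, h3, sub_zero] at h6
  have h7 : (w0 - y) - (v0 - x) = 2 * lam * ((tp P τ θ w0).re - (tp P τ θ v0).re) := by
    rw [← h1.eq, ← h2.eq]; ring
  have h8 : |w0 - v0| ≤ |y - x| + 2 * lam * (M * |w0 - v0|) := by
    have e : w0 - v0 = (y - x) + 2 * lam * ((tp P τ θ w0).re - (tp P τ θ v0).re) := by
      rw [← h7]; ring
    calc |w0 - v0| = |(y - x) + 2 * lam * ((tp P τ θ w0).re - (tp P τ θ v0).re)| := by rw [← e]
      _ ≤ |y - x| + |2 * lam * ((tp P τ θ w0).re - (tp P τ θ v0).re)| := abs_add_le _ _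
      _ = |y - x| + 2 * lam * |(tp P τ θ w0).re - (tp P τ θ v0).re| := by
          rw [abs_mul, abs_of_pos (by positivity : 0 < 2 * lam)]
      _ ≤ _ := by
          have := mul_le_mul_of_nonneg_left h5 (by positivity : 0 ≤ 2 * lam)
          linarith
  have h9 : lam * M ≤ 1 / 128 := by linarith
  have h10 : 2 * lam * (M * |w0 - v0|) ≤ 1 / 64 * |w0 - v0| := by
    have := mul_le_mul_of_nonneg_right h9 (abs_nonneg (w0 - v0))
    linarith
  have h11 : |w0 - v0| ≤ 2 * |y - x| := by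
    have := abs_nonneg (w0 - v0)
    linarith
  calc |(tp P τ θ w0).im| ≤ M * |w0 - v0| := h6
    _ ≤ M * (2 * |y - x|) := mul_le_mul_of_nonneg_left h11 hM
    _ = _ := by ring

/-- **zeros of the Gaussian transform of the tilted function** -/
theorem win_ne_zero (N : NumW v1 ω M Θ B1 W0 lam q η x1) (C : Win F P t v1 ω M Θ B1 W0 lam)
    {ε : ℂ} (hε : ‖ε‖ = 1) (hfe : ∀ z : ℂ, F (-conj z) = ε * conj (F z)) {x : ℝ} (hx : 0 ≤ x) :
    ∃ θ : ℝ, |2 * lam * θ| ≤ ω ∧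
      (0 < x → ∫ v, jj (tf F (t + 2 * lam * θ) θ) lam x v ≠ 0) ∧
      (x = 0 → ∀ D : ℂ, HasDerivAt (fun x : ℝ => ∫ v, jj (tf F (t + 2 * lam * θ) θ) lam x v) D 0 →
        ∫ v, jj (tf F (t + 2 * lam * θ) θ) lam 0 v = 0 → D ≠ 0) := by
  obtain ⟨θ, v0, h1, h2, h3, h4⟩ := tiltpt N C hx
  set τ := t + 2 * lam * θ with hτdef
  have hτ : |τ - t| ≤ ω := by rw [hτdef, add_sub_cancel_left]; exact h1
  have hcore := core_tilt C hτ θ
  have hnum := numT_tilt N C hτ θ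
  have hsad : Sad (tp P τ θ) v1 lam x v0 := ⟨h2, by rw [tp_re]; exact h3⟩
  have him : (tp P τ θ v0).im = 0 := by rw [tp_im, h4, sub_self]
  have hlam := N.lam0
  have hx1 := N.x0
  have key : ∀ y : ℝ, |y - x| ≤ 2 * x1 → ∀ w0, Sad (tp P τ θ) v1 lam y w0 →
      q ≤ Real.exp (-(lam * (tp P τ θ w0).im ^ 2)) := by
    intro y hy w0 hw
    have h5 := sad_close N C hτ θ hsad hw him
    refine N.tc.trans (Real.exp_le_exp.mpr ?_)
    rw [neg_le_neg_iff]
    apply mul_le_mul_of_nonneg_left _ hlam.le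
    have hM := C.Mnn
    have h6 : |(tp P τ θ w0).im| ≤ 4 * M * x1 := by
      refine h5.trans ?_
      nlinarith
    exact sq_le_sq' (by linarith [(abs_le.mp h6).1]) (abs_le.mp h6).2
  have hf : ∀ v, tf F τ θ (-v) = ε * conj (tf F τ θ v) := by
    intro v
    unfold tf
    have e : ((-v : ℝ) : ℂ) + (τ : ℂ) * I = -conj ((v : ℂ) + (τ : ℂ) * I) := by
      simp only [map_add, map_mul, conj_ofReal, conj_I]
      push_cast
      ring
    rw [e, hfe, map_mul, ← Complex.exp_conj]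
    have e2 : conj (-(I * (θ : ℂ) * (v : ℂ))) = -(I * (θ : ℂ) * ((-v : ℝ) : ℂ)) := by
      simp only [map_neg, map_mul, conj_I, conj_ofReal]
      push_cast
      ring
    rw [e2]
    ring
  refine ⟨θ, h1, fun hx0 => ?_, fun hx0 D hD hz => ?_⟩
  · refine hnum.ne_zero hcore hε hf hx0 (fun _ => key x (by simp; linarith)) (fun hlt y hy => ?_)
    refine key y ?_
    rw [abs_le]
    constructor <;> linarith [hy.1, hy.2]
  · subst hx0
    exact hnum.simple hcore (key 0 (by simp; linarith)) hε hf hD hz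

end Pool.Agent.H466.HF
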