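import Pool.Agent.H466.TH.A4

/-!
# Zeros of the heat flow of a kernel transform, window version
-/

set_option autoImplicit false

open Complex MeasureTheory Filter Topology Set
open scoped ComplexConjugate NNReal

namespace Pool.Agent.H466.HF

variable {P : ℂ → ℂ} {t v1 ω M Θ B1 W0 lam q η x1 : ℝ} {g : ℝ → ℂ} {A c : ℝ}

lemma tilt_int (k : Kern g A c) (hlam : 0 < lam) (τ θ x : ℝ) :
    ∫ v, jj (tf (LL g 0) τ θ) lam x v =
      (((Real.exp (x ^ 2 / (4 * lam)) : ℝ) : ℂ) * cexp (-(I * θ * x))) *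
        ((Real.sqrt (Real.pi * (4 * lam)) : ℂ) * cexp (-(lam * θ ^ 2))) *
        LL g lam ((x : ℂ) + (τ : ℂ) * I - 2 * I * lam * θ) := by
  have h1 := integral_add_left_eq_self (μ := (volume : Measure ℝ))
    (fun v : ℝ => jj (tf (LL g 0) τ θ) lam x v) x
  rw [← h1, mul_assoc, ← k.tilt hlam θ ((x : ℂ) + (τ : ℂ) * I), ← integral_const_mul]
  refine integral_congr_ae (Eventually.of_forall fun v => ?_)
  simp only
  unfold jj tf wt
  have e1 : ((x + v : ℝ) : ℂ) + (τ : ℂ) * I = (x : ℂ) + (τ : ℂ) * I + v := by push_cast; ring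
  have e2 : Real.exp (-(x + v) ^ 2 / (4 * lam) + x * (x + v) / (2 * lam)) =
      Real.exp (x ^ 2 / (4 * lam)) * Real.exp (-v ^ 2 / (4 * lam)) := by
    rw [← Real.exp_add]
    congr 1
    field_simp
    ring
  have e3 : cexp (-(I * θ * ((x + v : ℝ) : ℂ))) = cexp (-(I * θ * x)) * cexp (-(I * θ * v)) := by
    rw [← Complex.exp_add]
    congr 1
    push_cast
    ring
  rw [e1, e2, e3, ofReal_mul]
  ring

/-- the functional equation of the Gaussian transform -/
lemma LL_fe2 (k : Kern g A c) (hlam : 0 < lam) {ε : ℂ}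
    (hfe : ∀ z : ℂ, LL g 0 (-conj z) = ε * conj (LL g 0 z)) (s : ℂ) :
    LL g lam (-conj s) = ε * conj (LL g lam s) := by
  have hne : (Real.sqrt (Real.pi * (4 * lam)) : ℂ) ≠ 0 := by
    rw [Ne, ofReal_eq_zero]
    have := Real.pi_pos
    positivity
  have h1 := k.heat_eq hlam (-conj s)
  have h2 := k.heat_eq hlam s
  have h3 : heat (LL g 0) lam (-conj s) = ε * conj (heat (LL g 0) lam s) := by
    unfold heat
    rw [← integral_conj, ← integral_const_mul,
      ← integral_neg_eq_self (fun v : ℝ => LL g 0 (-conj s + v) * (Real.exp (-v ^ 2 / (4 * lam)) : ℂ))]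
    refine integral_congr_ae (Eventually.of_forall fun v => ?_)
    simp only
    have e : -conj s + ((-v : ℝ) : ℂ) = -conj (s + v) := by
      simp only [map_add, conj_ofReal]
      push_cast
      ring
    rw [e, hfe, map_mul, conj_ofReal, neg_sq]
    ring
  rw [h1, h2, map_mul, conj_ofReal] at h3
  have h4 : (Real.sqrt (Real.pi * (4 * lam)) : ℂ) * (LL g lam (-conj s)) =
      (Real.sqrt (Real.pi * (4 * lam)) : ℂ) * (ε * conj (LL g lam s)) := by
    rw [h3]; ring
  exact mul_left_cancel₀ hne h4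

/-- **the zeros of the heat flow at the height `t`** -/
theorem win_heat (k : Kern g A c) (N : NumW v1 ω M Θ B1 W0 lam q η x1)
    (C : Win (LL g 0) P t v1 ω M Θ B1 W0 lam) {ε : ℂ} (hε : ‖ε‖ = 1)
    (hfe : ∀ z : ℂ, LL g 0 (-conj z) = ε * conj (LL g 0 z)) {s : ℂ} (hs : s.im = t)
    (hz : LL g lam s = 0) : s.re = 0 ∧ deriv (LL g lam) s ≠ 0 := by
  have hlam := N.lam0
  -- the case of nonnegative real part
  have key : ∀ s : ℂ, s.im = t → 0 < s.re → LL g lam s ≠ 0 := by
    intro s hs hpos hz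
    obtain ⟨θ, -, h1, -⟩ := win_ne_zero N C hε hfe hpos.le
    apply h1 hpos
    rw [tilt_int k hlam]
    have e : (s.re : ℂ) + ((t + 2 * lam * θ : ℝ) : ℂ) * I - 2 * I * lam * θ = s := by
      apply Complex.ext
      · simp
      · simp [hs]
    rw [e, hz, mul_zero]
  have hre : s.re = 0 := by
    rcases lt_trichotomy s.re 0 with h | h | h
    · exfalso
      have h2 := LL_fe2 k hlam hfe s
      rw [hz, map_zero, mul_zero] at h2
      refine key (-conj s) ?_ ?_ h2
      · simp [hs]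
      · simpa using h
    · exact h
    · exact absurd hz (key s hs h)
  refine ⟨hre, ?_⟩
  obtain ⟨θ, -, -, h2⟩ := win_ne_zero N C hε hfe (le_refl (0 : ℝ))
  set K : ℂ := (Real.sqrt (Real.pi * (4 * lam)) : ℂ) * cexp (-(lam * θ ^ 2)) with hK
  have hs0 : s = ((0 : ℝ) : ℂ) + (t : ℂ) * I := by
    apply Complex.ext
    · simp [hre]
    · simp [hs]
  have hline : HasDerivAt (fun x : ℝ => (x : ℂ) + (t : ℂ) * I) 1 (0 : ℝ) := by
    have := (hasDerivAt_id (0 : ℝ)).ofReal_comp.add_const ((t : ℂ) * I)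
    simpa using this
  have hd1 : HasDerivAt (fun x : ℝ => LL g lam ((x : ℂ) + (t : ℂ) * I)) (deriv (LL g lam) s) (0 : ℝ) := by
    have h4 := ((k.differentiable lam) (((0 : ℝ) : ℂ) + (t : ℂ) * I)).hasDerivAt
    have h5 := h4.comp (0 : ℝ) hline
    rw [mul_one, ← hs0] at h5
    exact h5
  have hd2 : ∃ d : ℂ, HasDerivAt (fun x : ℝ => (((Real.exp (x ^ 2 / (4 * lam)) : ℝ) : ℂ) *
      cexp (-(I * θ * x))) * K) d (0 : ℝ) := by
    have h3 : Differentiable ℝ (fun x : ℝ => (((Real.exp (x ^ 2 / (4 * lam)) : ℝ) : ℂ) *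
      cexp (-(I * θ * x))) * K) := by
      have h4 : Differentiable ℝ (fun x : ℝ => ((Real.exp (x ^ 2 / (4 * lam)) : ℝ) : ℂ)) :=
        Complex.ofRealCLM.differentiable.comp (by fun_prop)
      have h5 : Differentiable ℝ (fun x : ℝ => cexp (-(I * θ * x))) := by
        have h6 : Differentiable ℝ (fun x : ℝ => (x : ℂ)) := Complex.ofRealCLM.differentiable
        exact (((differentiable_const (I * (θ : ℂ))).mul h6).neg).cexp
      exact (h4.mul h5).mul_const K
    exact ⟨_, (h3 0).hasDerivAt⟩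
  obtain ⟨d, hd2⟩ := hd2
  have hd3 := hd2.mul hd1
  have e : (fun x : ℝ => ∫ v, jj (tf (LL g 0) (t + 2 * lam * θ) θ) lam x v) =
      (fun x : ℝ => (((Real.exp (x ^ 2 / (4 * lam)) : ℝ) : ℂ) * cexp (-(I * θ * x))) * K) *
        fun x : ℝ => LL g lam ((x : ℂ) + (t : ℂ) * I) := by
    funext x
    rw [Pi.mul_apply, tilt_int k hlam]
    congr 2
    push_cast
    ring
  rw [← e] at hd3
  have hz0 : ∫ v, jj (tf (LL g 0) (t + 2 * lam * θ) θ) lam 0 v = 0 := by
    have := congrFun e 0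
    rw [this, Pi.mul_apply, ← hs0, hz, mul_zero]
  have h6 := h2 rfl _ hd3 hz0
  intro h7
  apply h6
  rw [h7, ← hs0, hz]
  simp

end Pool.Agent.H466.HF
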