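import Pool.Agent.H466.TH.A1
import Pool.Agent.H466.TH.A5

/-!
# The window data from bounds for the logarithm of the `L`-function
-/

set_option autoImplicit false

open Complex MeasureTheory Filter Topology Set
open scoped ComplexConjugate NNReal

namespace Pool.Agent.H466.HF

/-- a gamma factor on `Re z ≥ 0` with logarithmic derivative `D` -/
structure GamW (C : ℝ) (γ D : ℂ → ℂ) : Prop where
  hC : 1 ≤ C
  der : ∀ z : ℂ, 0 ≤ z.re → HasDerivAt γ (γ z * D z) z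
  ne : ∀ z : ℂ, 0 ≤ z.re → γ z ≠ 0
  lip : ∀ z w : ℂ, 0 ≤ z.re → 0 ≤ w.re → ‖D z - D w‖ ≤ C * ‖z - w‖
  im : ∀ z : ℂ, 0 ≤ z.re → |(D z).im| ≤ C

/-- size of the quotient `F / γ` in the window -/
structure SizeW (F γ : ℂ → ℂ) (t v1 b B1 : ℝ) : Prop where
  diff : Differentiable ℂ F
  lo : ∀ z : ℂ, v1 / 2 ≤ z.re → |z.im - t| ≤ 2 → Real.exp (-b) * ‖γ z‖ ≤ ‖F z‖
  hi : ∀ z : ℂ, v1 / 2 ≤ z.re → |z.im - t| ≤ 2 → ‖F z‖ ≤ Real.exp b * ‖γ z‖
  left : ∀ v τ : ℝ, 0 ≤ v → v ≤ v1 → |τ - t| ≤ 1 →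
    ‖F ((v : ℂ) + (τ : ℂ) * I)‖ ≤ B1 * ‖F ((v1 : ℂ) + (τ : ℂ) * I)‖

variable {F γ D : ℂ → ℂ} {C t v1 b B1 : ℝ}

/-- the quotient -/
noncomputable def quo (F γ : ℂ → ℂ) (z : ℂ) : ℂ := F z / γ z

/-- the logarithmic derivative of the quotient -/
noncomputable def lq (F γ : ℂ → ℂ) (z : ℂ) : ℂ := deriv (quo F γ) z / quo F γ z

lemma quo_diff (G : GamW C γ D) (S : SizeW F γ t v1 b B1) {z : ℂ} (hz : 0 ≤ z.re) :
    DifferentiableAt ℂ (quo F γ) z :=
  (S.diff z).div (G.der z hz).differentiableAt (G.ne z hz)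

lemma quo_bounds (G : GamW C γ D) (S : SizeW F γ t v1 b B1) (hv : 0 < v1) (hv2 : v1 ≤ 2) {z : ℂ}
    (hz : v1 ≤ z.re) (hz2 : |z.im - t| ≤ 1) :
    DifferentiableOn ℂ (quo F γ) (Metric.ball z (v1 / 2)) ∧
    (∀ w ∈ Metric.ball z (v1 / 2), Real.exp (-b) ≤ ‖quo F γ w‖) ∧
    (∀ w ∈ Metric.ball z (v1 / 2), ‖quo F γ w‖ ≤ Real.exp b) := by
  have hw : ∀ w ∈ Metric.ball z (v1 / 2), v1 / 2 ≤ w.re ∧ |w.im - t| ≤ 2 := by
    intro w hw
    rw [Metric.mem_ball, dist_eq_norm] at hw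
    have h1 := (abs_le.mp ((Complex.abs_re_le_norm (w - z)).trans hw.le)).1
    have h2 := (Complex.abs_im_le_norm (w - z)).trans hw.le
    rw [sub_re] at h1
    rw [sub_im] at h2
    refine ⟨by linarith, ?_⟩
    have h3 : w.im - t = (w.im - z.im) + (z.im - t) := by ring
    rw [h3]
    refine (abs_add_le _ _).trans ?_
    linarith
  refine ⟨fun w h => ?_, fun w h => ?_, fun w h => ?_⟩
  · exact (quo_diff G S (by linarith [(hw w h).1])).differentiableWithinAt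
  · have h1 := S.lo w (hw w h).1 (hw w h).2
    have h2 : 0 < ‖γ w‖ := norm_pos_iff.mpr (G.ne w (by linarith [(hw w h).1]))
    unfold quo
    rw [norm_div, le_div_iff₀ h2]
    exact h1
  · have h1 := S.hi w (hw w h).1 (hw w h).2
    have h2 : 0 < ‖γ w‖ := norm_pos_iff.mpr (G.ne w (by linarith [(hw w h).1]))
    unfold quo
    rw [norm_div, div_le_iff₀ h2]
    exact h1

lemma lq_bound (G : GamW C γ D) (S : SizeW F γ t v1 b B1) (hv : 0 < v1) (hv2 : v1 ≤ 2)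
    (hb : 0 < b) {z : ℂ} (hz : v1 ≤ z.re) (hz2 : |z.im - t| ≤ 1) :
    ‖lq F γ z‖ ≤ 32 * b / v1 ∧ ‖deriv (lq F γ) z‖ ≤ 1024 * b / v1 ^ 2 := by
  obtain ⟨h1, h2, h3⟩ := quo_bounds G S hv hv2 hz hz2
  obtain ⟨h4, h5⟩ := TH.logder_bound (by positivity) hb h1 h2 h3
  refine ⟨h4.trans (le_of_eq ?_), h5.trans (le_of_eq ?_)⟩
  · field_simp; ring
  · field_simp; ring

lemma quo_ne (G : GamW C γ D) (S : SizeW F γ t v1 b B1) (hv : 0 < v1) {z : ℂ}
    (hz : v1 / 2 ≤ z.re) (hz2 : |z.im - t| ≤ 2) : F z ≠ 0 ∧ quo F γ z ≠ 0 := by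
  have h1 := S.lo z hz hz2
  have h2 : 0 < ‖γ z‖ := norm_pos_iff.mpr (G.ne z (by linarith))
  have h3 : 0 < ‖F z‖ := lt_of_lt_of_le (by positivity) h1
  have h4 := norm_pos_iff.mp h3
  exact ⟨h4, div_ne_zero h4 (G.ne z (by linarith))⟩

lemma lq_diff (G : GamW C γ D) (S : SizeW F γ t v1 b B1) (hv : 0 < v1) {z : ℂ}
    (hz : v1 ≤ z.re) (hz2 : |z.im - t| ≤ 1) : DifferentiableAt ℂ (lq F γ) z := by
  have hopen : IsOpen {w : ℂ | 0 < w.re} := isOpen_lt continuous_const continuous_re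
  have h1 : DifferentiableOn ℂ (quo F γ) {w : ℂ | 0 < w.re} := fun w hw =>
    (quo_diff G S (le_of_lt hw)).differentiableWithinAt
  have h2 := (h1.deriv hopen).differentiableAt (hopen.mem_nhds (show 0 < z.re by linarith))
  exact h2.div (quo_diff G S (by linarith)) (quo_ne G S hv (by linarith) (by linarith)).2

/-- Lipschitz bound -/
lemma lq_lip (G : GamW C γ D) (S : SizeW F γ t v1 b B1) (hv : 0 < v1) (hv2 : v1 ≤ 2)
    (hb : 0 < b) {z w : ℂ} (hz : v1 ≤ z.re) (hz2 : |z.im - t| ≤ 1) (hw : v1 ≤ w.re)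
    (hw2 : |w.im - t| ≤ 1) : ‖lq F γ z - lq F γ w‖ ≤ 1024 * b / v1 ^ 2 * ‖z - w‖ := by
  have hconv : Convex ℝ {z : ℂ | v1 ≤ z.re ∧ |z.im - t| ≤ 1} := by
    have e : {z : ℂ | v1 ≤ z.re ∧ |z.im - t| ≤ 1} =
        {z : ℂ | v1 ≤ z.re} ∩ ({z : ℂ | t - 1 ≤ z.im} ∩ {z : ℂ | z.im ≤ t + 1}) := by
      ext z
      simp only [mem_ofPred_eq, mem_inter_iff, abs_le]
      constructor
      · rintro ⟨h1, h2, h3⟩
        exact ⟨h1, by linarith, by linarith⟩
      · rintro ⟨h1, h2, h3⟩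
        exact ⟨h1, by linarith, by linarith⟩
    rw [e]
    exact (convex_halfSpace_re_ge v1).inter
      ((convex_halfSpace_im_ge _).inter (convex_halfSpace_im_le _))
  exact hconv.norm_image_sub_le_of_norm_deriv_le (f := lq F γ)
    (fun z hz => lq_diff G S hv hz.1 hz.2) (fun z hz => (lq_bound G S hv hv2 hb hz.1 hz.2).2)
    ⟨hw, hw2⟩ ⟨hz, hz2⟩

/-- the logarithmic derivative of `F` -/
noncomputable def ld (F γ D : ℂ → ℂ) (z : ℂ) : ℂ := D z + lq F γ z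

lemma ld_der (G : GamW C γ D) (S : SizeW F γ t v1 b B1) (hv : 0 < v1) {z : ℂ}
    (hz : v1 ≤ z.re) (hz2 : |z.im - t| ≤ 1) : HasDerivAt F (F z * ld F γ D z) z := by
  have h1 := (quo_diff G S (z := z) (by linarith)).hasDerivAt
  have h2 := h1.mul (G.der z (by linarith))
  have e : (fun w => quo F γ w * γ w) =ᶠ[𝓝 z] F := by
    have hopen : IsOpen {w : ℂ | 0 < w.re} := isOpen_lt continuous_const continuous_re
    filter_upwards [hopen.mem_nhds (show 0 < z.re by linarith)] with w hw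
    unfold quo
    have := G.ne w (le_of_lt hw)
    field_simp
  have h3 : HasDerivAt F (deriv (quo F γ) z * γ z + quo F γ z * (γ z * D z)) z := by
    have h4 : HasDerivAt (fun w => quo F γ w * γ w)
      (deriv (quo F γ) z * γ z + quo F γ z * (γ z * D z)) z := h2
    exact h4.congr_of_eventuallyEq e.symm
  refine h3.congr_deriv ?_
  obtain ⟨h4, h5⟩ := quo_ne G S hv (z := z) (by linarith) (by linarith)
  have h6 := G.ne z (by linarith)
  unfold ld lq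
  have h7 : F z = quo F γ z * γ z := by
    unfold quo
    field_simp
  rw [h7]
  field_simp
  ring

/-- the window -/
lemma win_of (G : GamW C γ D) (S : SizeW F γ t v1 b B1) (hv : 0 < v1) (hv2 : v1 ≤ 2)
    (hb : 0 < b) (hB : 0 ≤ B1) {ω lam : ℝ} (hω : ω ≤ 1) (hlam : 0 < lam)
    {W0 : ℝ} (hW : W0 ≤ 2 * lam * ((D ((t : ℂ) * I)).re - C * (v1 + ω) - 32 * b / v1)) :
    Win F (ld F γ D) t v1 ω (C + 1024 * b / v1 ^ 2) (C + 32 * b / v1) B1 W0 lam := by
  have hC := G.hC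
  refine ⟨S.diff.continuous, fun z h1 h2 => ld_der G S hv h1 (h2.trans hω), fun z w h1 h2 h3 h4 => ?_,
    fun z h1 h2 => ?_, fun v τ h1 h2 h3 => S.left v τ h1 h2 (h3.trans hω), fun τ h1 => ?_,
    fun τ h1 => ?_, hv, by positivity, hB⟩
  · have h5 := G.lip z w (by linarith) (by linarith)
    have h6 := lq_lip G S hv hv2 hb h1 (h2.trans hω) h3 (h4.trans hω)
    have e : ld F γ D z - ld F γ D w = (D z - D w) + (lq F γ z - lq F γ w) := by unfold ld; ring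
    rw [e, add_mul]
    exact (norm_add_le _ _).trans (add_le_add h5 h6)
  · have h5 := G.im z (by linarith)
    have h6 := (lq_bound G S hv hv2 hb h1 (h2.trans hω)).1
    unfold ld
    rw [add_im]
    exact (abs_add_le _ _).trans (add_le_add h5 ((Complex.abs_im_le_norm _).trans h6))
  · refine (quo_ne G S hv (z := (v1 : ℂ) + (τ : ℂ) * I) ?_ ?_).1
    · rw [cz_re]; linarith
    · rw [cz_im]; linarith
  · refine hW.trans (mul_le_mul_of_nonneg_left ?_ (by positivity))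
    have h5 := G.lip ((v1 : ℂ) + (τ : ℂ) * I) ((t : ℂ) * I) (by rw [cz_re]; linarith) (by simp)
    have h6 : ‖(v1 : ℂ) + (τ : ℂ) * I - (t : ℂ) * I‖ ≤ v1 + ω := by
      have e : (v1 : ℂ) + (τ : ℂ) * I - (t : ℂ) * I = (v1 : ℂ) + ((τ - t : ℝ) : ℂ) * I := by
        push_cast; ring
      rw [e]
      refine (norm_add_le _ _).trans ?_
      rw [norm_mul, Complex.norm_real, Complex.norm_real, norm_I, mul_one, Real.norm_eq_abs,
        Real.norm_eq_abs, abs_of_pos hv]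
      linarith
    have h7 := (abs_le.mp ((Complex.abs_re_le_norm _).trans h5)).1
    rw [sub_re] at h7
    have h8 : C * ‖(v1 : ℂ) + (τ : ℂ) * I - (t : ℂ) * I‖ ≤ C * (v1 + ω) :=
      mul_le_mul_of_nonneg_left h6 (by linarith)
    have h9 := (lq_bound G S hv hv2 hb (z := (v1 : ℂ) + (τ : ℂ) * I) (by rw [cz_re]) (by
      rw [cz_im]; exact h1.trans hω)).1
    have h10 := (abs_le.mp ((Complex.abs_re_le_norm _).trans h9)).1
    unfold ld
    rw [add_re]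
    linarith

end Pool.Agent.H466.HF
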