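import Pool.Agent.H466.TH.A6

/-!
# The numerical conditions, and the main theorem on windows
-/

set_option autoImplicit false

open Complex MeasureTheory Filter Topology Set
open scoped ComplexConjugate NNReal

namespace Pool.Agent.H466.HF

/-- numerical conditions -/
lemma numW_of {C κ ℒ b lam v1 : ℝ} (hC : 1 ≤ C) (hκ : 0 ≤ κ) (hb : 1 ≤ b) (hlam : 0 < lam)
    (hℒ : 2 ^ 26 * (C + κ + 1) ≤ ℒ) (hv1 : v1 = lam * ℒ / 4) (hv2 : v1 ≤ 1 / 2)
    (hY : 2 ^ 26 * (C + κ + 1) * b ≤ v1 * ℒ) :
    ∃ ω x1 : ℝ, ω ≤ 1 ∧ 6 * v1 ≤ 2 * lam * (ℒ - C * (v1 + ω) - 32 * b / v1) ∧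
      NumW v1 ω (C + 1024 * b / v1 ^ 2) (C + 32 * b / v1) (Real.exp (κ * b)) (6 * v1) lam (1 / 2) v1
        x1 := by
  have hℒ0 : 0 < ℒ := by
    have : 0 < 2 ^ 26 * (C + κ + 1) := by positivity
    linarith
  have hv0 : 0 < v1 := by rw [hv1]; positivity
  set Y : ℝ := v1 * ℒ with hYdef
  have hY0 : 0 < Y := by positivity
  have hb0 : 0 < b := by linarith
  set r : ℝ := C / ℒ with hr
  set s : ℝ := b / Y with hs
  have hr0 : 0 ≤ r := by positivity
  have hs0 : 0 ≤ s := by positivity
  have hr1 : r ≤ 1 / 2 ^ 26 := by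
    rw [hr, div_le_div_iff₀ hℒ0 (by positivity)]
    nlinarith
  have hs1 : s ≤ 1 / 2 ^ 26 := by
    rw [hs, div_le_div_iff₀ hY0 (by positivity)]
    have : 2 ^ 26 * b ≤ 2 ^ 26 * (C + κ + 1) * b := by nlinarith
    linarith
  have hlamv : lam = 4 * v1 / ℒ := by
    rw [hv1]
    field_simp
  have hlam2 : lam = 4 * v1 ^ 2 / Y := by
    rw [hlamv, hYdef]
    field_simp
  have hYbig : (2 : ℝ) ^ 26 ≤ Y := by
    have : (2 : ℝ) ^ 26 * 1 ≤ 2 ^ 26 * (C + κ + 1) * b := by
      have h1 : 1 ≤ C + κ + 1 := by linarith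
      nlinarith
    linarith
  -- `lam * M`
  have hLM : lam * (C + 1024 * b / v1 ^ 2) = 4 * v1 * r + 4096 * s := by
    rw [mul_add]
    congr 1
    · rw [hlamv, hr]; ring
    · rw [hlam2, hs]
      field_simp
      ring
  have hLM1 : lam * (C + 1024 * b / v1 ^ 2) ≤ 1 / 2 ^ 12 := by
    rw [hLM]
    have h1 : 4 * v1 * r ≤ 4 * (1 / 2) * (1 / 2 ^ 26) := by
      apply mul_le_mul _ hr1 hr0 (by norm_num)
      linarith
    norm_num at h1 hs1 ⊢
    linarith
  have hLM0 : 0 ≤ lam * (C + 1024 * b / v1 ^ 2) := by positivity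
  have hLΘ : 2 * lam * (C + 32 * b / v1) = v1 * (8 * r + 256 * s) := by
    rw [mul_add]
    have e1 : 2 * lam * C = 8 * v1 * r := by rw [hlamv, hr]; ring
    have e2 : 2 * lam * (32 * b / v1) = 256 * v1 * s := by
      rw [hlam2, hs]
      field_simp
      ring
    rw [e1, e2]
    ring
  have hω1 : v1 * (8 * r + 256 * s) ≤ v1 * (1 / 2 ^ 10) := by
    apply mul_le_mul_of_nonneg_left _ hv0.le
    norm_num at hr1 hs1 ⊢
    linarith
  have hω0 : 0 ≤ v1 * (8 * r + 256 * s) := by positivity
  refine ⟨v1 * (8 * r + 256 * s), 12 / ℒ, ?_, ?_, ?_⟩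
  · norm_num at hω1 ⊢
    linarith
  · set ω := v1 * (8 * r + 256 * s) with hω
    have e1 : 2 * lam * (ℒ - C * (v1 + ω) - 32 * b / v1) =
        8 * v1 - 8 * v1 * r * (v1 + ω) - 256 * v1 * s := by
      have e2 : 2 * lam * (32 * b / v1) = 256 * v1 * s := by
        rw [hlam2, hs]
        field_simp
        ring
      have e3 : 2 * lam * ℒ = 8 * v1 := by
        rw [hlamv]
        field_simp
        ring
      have e4 : 2 * lam * C = 8 * v1 * r := by rw [hlamv, hr]; ring
      calc 2 * lam * (ℒ - C * (v1 + ω) - 32 * b / v1)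
          = 2 * lam * ℒ - (2 * lam * C) * (v1 + ω) - 2 * lam * (32 * b / v1) := by ring
        _ = _ := by rw [e2, e3, e4]
    rw [e1]
    have h1 : v1 + ω ≤ 1 := by
      norm_num at hω1
      linarith
    have h2 : 8 * v1 * r * (v1 + ω) ≤ 8 * v1 * (1 / 2 ^ 26) * 1 := by
      apply mul_le_mul _ h1 (by positivity) (by positivity)
      apply mul_le_mul_of_nonneg_left hr1 (by positivity)
    have h3 : 256 * v1 * s ≤ 256 * v1 * (1 / 2 ^ 26) := mul_le_mul_of_nonneg_left hs1 (by positivity)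
    norm_num at h2 h3
    linarith
  · set M := C + 1024 * b / v1 ^ 2 with hM
    set Θ := C + 32 * b / v1 with hΘ
    refine ⟨hlam, by norm_num, by norm_num, ?_, ?_, ?_, by positivity, ?_, hv0, le_rfl, by linarith,
      ?_, ?_, ?_, ?_, hω0, hLΘ.le, ?_⟩
    · norm_num at hLM1 ⊢
      linarith
    · have e : v1 ^ 2 / (32 * lam) = Y / 128 := by
        rw [hlam2]
        field_simp
        ring
      rw [e]
      have h1 : (12 : ℝ) ≤ Real.exp (Y / 128) := by
        have := Real.add_one_le_exp (Y / 128)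
        norm_num at hYbig
        linarith
      rw [Real.exp_neg]
      have h2 : (Real.exp (Y / 128))⁻¹ ≤ 12⁻¹ := inv_anti₀ (by norm_num) h1
      linarith
    · have h1 : Real.log (8 / (1 / 2)) ≤ 3 := by
        have e : (8 / (1 / 2) : ℝ) = 2 ^ 4 := by norm_num
        rw [e, Real.log_pow]
        have := Real.log_two_lt_d9
        push_cast
        linarith
      have e : v1 * (12 / ℒ) = 3 * lam := by
        rw [hlamv]
        ring
      rw [e]
      nlinarith
    · rw [div_le_div_iff₀ hℒ0 (by norm_num)]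
      norm_num at hYbig
      rw [← hYdef]
      linarith
    · have : 160 * (lam * M * v1) = (160 * (lam * M)) * v1 := by ring
      rw [this]
      have h1 : 160 * (lam * M) ≤ 1 := by
        norm_num at hLM1
        linarith
      nlinarith
    · -- the main exponential condition
      have e1 : 6 * v1 * v1 / (16 * lam) = 3 / 32 * Y := by
        rw [hlam2]
        field_simp
        ring
      rw [e1]
      have hsq : Real.sqrt lam = 2 * v1 / Real.sqrt Y := by
        rw [hlam2]
        have e2 : 4 * v1 ^ 2 / Y = (2 * v1) ^ 2 / Y := by ring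
        rw [e2, Real.sqrt_div (by positivity), Real.sqrt_sq (by positivity)]
      rw [hsq]
      have hsY : 0 < Real.sqrt Y := Real.sqrt_pos.mpr hY0
      have hsY1 : Real.sqrt Y ≤ Y := by
        rw [Real.sqrt_le_left hY0.le]
        nlinarith
      have h1 : 8 * Real.sqrt Y ≤ Real.exp (Y / 32) := by
        have h2 := Real.pow_div_factorial_le_exp (Y / 32) (by positivity) 2
        have h3 : ((Nat.factorial 2 : ℕ) : ℝ) = 2 := by norm_num [Nat.factorial]
        rw [h3] at h2
        refine le_trans ?_ h2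
        have h4 : 8 * Y ≤ (Y / 32) ^ 2 / 2 := by
          norm_num at hYbig
          nlinarith
        linarith
      have h2 : κ * b ≤ Y / 16 := by
        have h3 : 2 ^ 26 * κ * b ≤ 2 ^ 26 * (C + κ + 1) * b := by
          apply mul_le_mul_of_nonneg_right _ hb0.le
          nlinarith
        have h4 : 0 ≤ κ * b := by positivity
        norm_num at h3
        have h5 : 67108864 * (κ * b) ≤ Y := by
          have : 67108864 * (C + κ + 1) * b ≤ Y := by
            have := hY
            norm_num at this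
            linarith
          linarith
        linarith
      have h3 : Real.exp (κ * b) * Real.exp (-(3 / 32 * Y)) * (8 * Real.sqrt Y) ≤ 1 := by
        calc Real.exp (κ * b) * Real.exp (-(3 / 32 * Y)) * (8 * Real.sqrt Y)
            ≤ Real.exp (Y / 16) * Real.exp (-(3 / 32 * Y)) * Real.exp (Y / 32) := by
              gcongr
          _ = 1 := by
              rw [← Real.exp_add, ← Real.exp_add]
              have : Y / 16 + -(3 / 32 * Y) + Y / 32 = 0 := by ring
              rw [this, Real.exp_zero]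
      have e3 : 1 / 2 * (2 * v1 / Real.sqrt Y) = v1 / Real.sqrt Y := by ring
      rw [e3, le_div_iff₀ hsY]
      calc 8 * (v1 * Real.exp (κ * b) * Real.exp (-(3 / 32 * Y))) * Real.sqrt Y
          = v1 * (Real.exp (κ * b) * Real.exp (-(3 / 32 * Y)) * (8 * Real.sqrt Y)) := by ring
        _ ≤ v1 * 1 := mul_le_mul_of_nonneg_left h3 hv0.le
        _ = v1 := mul_one _
    · have hsq : Real.sqrt lam = 2 * v1 / Real.sqrt Y := by
        rw [hlam2]
        have e2 : 4 * v1 ^ 2 / Y = (2 * v1) ^ 2 / Y := by ring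
        rw [e2, Real.sqrt_div (by positivity), Real.sqrt_sq (by positivity)]
      rw [hsq]
      have hsY : 80 ≤ Real.sqrt Y := by
        apply Real.le_sqrt_of_sq_le
        norm_num at hYbig ⊢
        linarith
      have e3 : 20 * (2 * v1 / Real.sqrt Y) = 40 * v1 / Real.sqrt Y := by ring
      rw [e3, div_le_iff₀ (by linarith)]
      nlinarith
    · have e : lam * (4 * M * (12 / ℒ)) ^ 2 = 576 * (lam * M) ^ 2 / Y := by
        have e1 : Y = lam * ℒ ^ 2 / 4 := by rw [hYdef, hv1]; ring
        rw [e1]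
        field_simp
        ring
      rw [e]
      have h1 : 576 * (lam * M) ^ 2 / Y ≤ 1 / 4 := by
        rw [div_le_iff₀ hY0]
        have h2 : (lam * M) ^ 2 ≤ 1 := by
          apply pow_le_one₀ hLM0
          norm_num at hLM1 ⊢
          linarith
        norm_num at hYbig
        linarith
      have h2 := Real.add_one_le_exp (-(576 * (lam * M) ^ 2 / Y))
      linarith
    · have h1 : 2 * lam * M * (v1 * (8 * r + 256 * s)) ≤ 1 * (v1 * (1 / 2 ^ 10)) := by
        apply mul_le_mul _ hω1 hω0 (by norm_num)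
        norm_num at hLM1
        linarith
      norm_num at h1 ⊢
      linarith

/-- **the heat flow at the height `t`**: the zeros are simple and lie on the critical line if
`lam ℒ² ≥ C' b`, where `ℒ = Re D(it)` and `exp (± b)` are bounds for the `L`-function to the right of
the line `Re z = lam ℒ / 8`. -/
theorem window_heat {g : ℝ → ℂ} {A c : ℝ} {γ D : ℂ → ℂ} {C κ b lam t : ℝ} {ε : ℂ}
    (k : Kern g A c) (G : GamW C γ D) (hε : ‖ε‖ = 1)
    (hfe : ∀ z : ℂ, LL g 0 (-conj z) = ε * conj (LL g 0 z)) (hκ : 0 ≤ κ) (hb : 1 ≤ b)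
    (hlam : 0 < lam) (hℒ : 2 ^ 26 * (C + κ + 1) ≤ (D ((t : ℂ) * I)).re)
    (hv2 : lam * (D ((t : ℂ) * I)).re ≤ 2)
    (hY : 2 ^ 28 * (C + κ + 1) * b ≤ lam * (D ((t : ℂ) * I)).re ^ 2)
    (S : SizeW (LL g 0) γ t (lam * (D ((t : ℂ) * I)).re / 4) b (Real.exp (κ * b)))
    {s : ℂ} (hs : s.im = t) (hz : LL g lam s = 0) : s.re = 0 ∧ deriv (LL g lam) s ≠ 0 := by
  set ℒ := (D ((t : ℂ) * I)).re with hℒdef
  set v1 := lam * ℒ / 4 with hv1
  have hC := G.hC
  have hℒ0 : 0 < ℒ := by
    have : 0 < 2 ^ 26 * (C + κ + 1) := by positivity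
    linarith
  have hv0 : 0 < v1 := by positivity
  have hvv : v1 ≤ 1 / 2 := by linarith
  obtain ⟨ω, x1, h1, h2, N⟩ := numW_of hC hκ hb hlam hℒ hv1 hvv (by
    rw [hv1]
    norm_num at hY ⊢
    linarith)
  have W := win_of G S hv0 (by linarith) (by linarith) (Real.exp_pos _).le h1 hlam (W0 := 6 * v1) h2
  exact win_heat k N W hε hfe hs hz

end Pool.Agent.H466.HF
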