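import Pool.Agent.H466.TH.A7

/-!
# The bound on the left part by the three lines theorem
-/

set_option autoImplicit false

open Complex MeasureTheory Filter Topology Set Asymptotics
open scoped ComplexConjugate NNReal

namespace Pool.Agent.H466.HF

lemma growth_line {f d : ℝ → ℂ} {C : ℝ} (hf : ∀ u, HasDerivAt f (f u * d u) u)
    (hne : ∀ u, f u ≠ 0) (hd : ∀ u, |(d u).re| ≤ C) (a b : ℝ) :
    ‖f b‖ ≤ ‖f a‖ * Real.exp (C * |b - a|) := by
  have hpos : ∀ u, 0 < ‖f u‖ ^ 2 := fun u => by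
    have := norm_pos_iff.mpr (hne u)
    positivity
  have h1 : ∀ u, HasDerivAt (fun u => Real.log (‖f u‖ ^ 2)) (2 * (d u).re) u := by
    intro u
    have h2 := (hf u).norm_sq
    have h3 := h2.log (hpos u).ne'
    refine h3.congr_deriv ?_
    have e : inner ℝ (f u) (f u * d u) = ‖f u‖ ^ 2 * (d u).re := by
      rw [Complex.inner]
      have : f u * d u * conj (f u) = ((‖f u‖ ^ 2 : ℝ) : ℂ) * d u := by
        push_cast
        rw [← Complex.conj_mul']
        ring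
      rw [this, re_ofReal_mul]
    rw [e]
    have h4 := (hpos u).ne'
    rw [div_eq_iff h4]
    ring
  have h2 := (convex_univ (𝕜 := ℝ) (E := ℝ)).norm_image_sub_le_of_norm_hasDerivWithin_le
    (f := fun u => Real.log (‖f u‖ ^ 2)) (f' := fun u => 2 * (d u).re) (C := 2 * C)
    (fun u _ => (h1 u).hasDerivWithinAt) (fun u _ => by
      rw [Real.norm_eq_abs, abs_mul, abs_two]
      linarith [hd u]) (mem_univ a) (mem_univ b)
  simp only [Real.norm_eq_abs] at h2
  have h3 := (abs_le.mp h2).2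
  have h4 : Real.log (‖f b‖ ^ 2) ≤ Real.log (‖f a‖ ^ 2) + 2 * C * |b - a| := by linarith
  have h5 : ‖f b‖ ^ 2 ≤ (‖f a‖ * Real.exp (C * |b - a|)) ^ 2 := by
    rw [← Real.exp_log (hpos b)]
    refine (Real.exp_le_exp.mpr h4).trans (le_of_eq ?_)
    rw [Real.exp_add, Real.exp_log (hpos a), mul_pow, ← Real.exp_nat_mul]
    congr 2
    push_cast
    ring
  exact (pow_le_pow_iff_left₀ (norm_nonneg _) (by positivity) two_ne_zero).mp h5

variable {F γ D : ℂ → ℂ} {C : ℝ}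

lemma gam_vert (G : GamW C γ D) {v : ℝ} (hv : 0 ≤ v) (τ t0 : ℝ) :
    ‖γ ((v : ℂ) + (τ : ℂ) * I)‖ ≤ ‖γ ((v : ℂ) + (t0 : ℂ) * I)‖ * Real.exp (C * |τ - t0|) := by
  have hline : ∀ u : ℝ, HasDerivAt (fun u : ℝ => (v : ℂ) + (u : ℂ) * I) I u := fun u => by
    have := ((hasDerivAt_id u).ofReal_comp.mul_const I).const_add (v : ℂ)
    simpa using this
  refine growth_line (f := fun u : ℝ => γ ((v : ℂ) + (u : ℂ) * I))
    (d := fun u : ℝ => D ((v : ℂ) + (u : ℂ) * I) * I) (fun u => ?_) (fun u => ?_) (fun u => ?_) t0 τ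
  · have h1 := (G.der ((v : ℂ) + (u : ℂ) * I) (by rw [cz_re]; exact hv)).comp u (hline u)
    refine h1.congr_deriv ?_
    ring
  · exact G.ne _ (by rw [cz_re]; exact hv)
  · have h1 := G.im ((v : ℂ) + (u : ℂ) * I) (by rw [cz_re]; exact hv)
    have e : (D ((v : ℂ) + (u : ℂ) * I) * I).re = -(D ((v : ℂ) + (u : ℂ) * I)).im := by
      simp
    rw [e, abs_neg]
    exact h1

lemma quad_le (a u : ℝ) : a * u - u ^ 2 ≤ a ^ 2 / 4 := by nlinarith [sq_nonneg (u - a / 2)]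

/-- **the left part** -/
theorem left_of {g : ℝ → ℂ} {A c : ℝ} (k : Kern g A c) (G : GamW C γ D) {ε : ℂ} (hε : ‖ε‖ = 1)
    (hfe : ∀ z : ℂ, LL g 0 (-conj z) = ε * conj (LL g 0 z)) {K b v1 t0 : ℝ} (hK : 0 ≤ K)
    (hv0 : 0 < v1) (hv1 : v1 ≤ 1)
    (hi : ∀ τ : ℝ, ‖LL g 0 ((v1 : ℂ) + (τ : ℂ) * I)‖ ≤
      Real.exp (b + K * |τ - t0|) * ‖γ ((v1 : ℂ) + (τ : ℂ) * I)‖)
    (lo : Real.exp (-b) * ‖γ ((v1 : ℂ) + (t0 : ℂ) * I)‖ ≤ ‖LL g 0 ((v1 : ℂ) + (t0 : ℂ) * I)‖)
    {v : ℝ} (h0 : 0 ≤ v) (h1 : v ≤ v1) :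
    ‖LL g 0 ((v : ℂ) + (t0 : ℂ) * I)‖ ≤
      Real.exp (2 * b + 1 + (K + C) ^ 2 / 4) * ‖LL g 0 ((v1 : ℂ) + (t0 : ℂ) * I)‖ := by
  set F := LL g 0 with hF
  set Γ0 := ‖γ ((v1 : ℂ) + (t0 : ℂ) * I)‖ with hΓ
  have hΓ0 : 0 ≤ Γ0 := norm_nonneg _
  set B := Real.exp (b + 1 + (K + C) ^ 2 / 4) * Γ0 with hB
  set f : ℂ → ℂ := fun z => F z * cexp ((z - (t0 : ℂ) * I) ^ 2) with hf
  have hfd : Differentiable ℂ f := by
    have := k.differentiable 0
    exact this.mul (by fun_prop)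
  have hnorm : ∀ z : ℂ, ‖cexp ((z - (t0 : ℂ) * I) ^ 2)‖ = Real.exp (z.re ^ 2 - (z.im - t0) ^ 2) := by
    intro z
    rw [Complex.norm_exp]
    congr 1
    rw [sq, mul_re]
    simp
    ring
  -- the right edge
  have hright : ∀ z : ℂ, z.re = v1 → ‖F z‖ * Real.exp (z.re ^ 2 - (z.im - t0) ^ 2) ≤ B := by
    intro z hz
    have hz' : z = (v1 : ℂ) + (z.im : ℂ) * I := by
      apply Complex.ext <;> simp [hz]
    have h2 := hi z.im
    rw [← hz'] at h2
    have h3 := gam_vert G hv0.le z.im t0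
    rw [← hz'] at h3
    have h4 : ‖F z‖ ≤ Real.exp (b + K * |z.im - t0|) * (Γ0 * Real.exp (C * |z.im - t0|)) :=
      h2.trans (mul_le_mul_of_nonneg_left h3 (Real.exp_pos _).le)
    calc ‖F z‖ * Real.exp (z.re ^ 2 - (z.im - t0) ^ 2)
        ≤ (Real.exp (b + K * |z.im - t0|) * (Γ0 * Real.exp (C * |z.im - t0|))) *
          Real.exp (z.re ^ 2 - (z.im - t0) ^ 2) :=
          mul_le_mul_of_nonneg_right h4 (Real.exp_pos _).le
      _ = Real.exp (b + z.re ^ 2 + ((K + C) * |z.im - t0| - |z.im - t0| ^ 2)) * Γ0 := by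
          rw [sq_abs]
          have e : Real.exp (b + z.re ^ 2 + ((K + C) * |z.im - t0| - (z.im - t0) ^ 2)) =
              Real.exp (b + K * |z.im - t0|) * Real.exp (C * |z.im - t0|) *
              Real.exp (z.re ^ 2 - (z.im - t0) ^ 2) := by
            rw [← Real.exp_add, ← Real.exp_add]
            congr 1
            ring
          rw [e]
          ring
      _ ≤ B := by
          rw [hB]
          apply mul_le_mul_of_nonneg_right _ hΓ0
          apply Real.exp_le_exp.mpr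
          have h5 := quad_le (K + C) |z.im - t0|
          have h6 : z.re ^ 2 ≤ 1 := by rw [hz]; nlinarith
          linarith
  have hPL := PhragmenLindelof.vertical_strip (f := f) (a := -v1) (b := v1) (C := B)
    (z := (v : ℂ) + (t0 : ℂ) * I) hfd.diffContOnCl ?_ ?_ ?_ ?_ ?_
  · have e1 := hnorm ((v : ℂ) + (t0 : ℂ) * I)
    rw [cz_re, cz_im, sub_self] at e1
    simp only [hf, norm_mul] at hPL
    rw [e1] at hPL
    have h2 : 1 ≤ Real.exp (v ^ 2 - 0 ^ 2) := by
      apply Real.one_le_exp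
      nlinarith [sq_nonneg v]
    have h3 : ‖F ((v : ℂ) + (t0 : ℂ) * I)‖ ≤ B := by
      refine le_trans ?_ hPL
      exact le_mul_of_one_le_right (norm_nonneg _) h2
    refine h3.trans ?_
    have h4 : Γ0 ≤ Real.exp b * ‖F ((v1 : ℂ) + (t0 : ℂ) * I)‖ := by
      have h5 := mul_le_mul_of_nonneg_left lo (Real.exp_pos b).le
      rw [← mul_assoc, ← Real.exp_add, add_neg_cancel, Real.exp_zero, one_mul] at h5
      exact h5
    calc B = Real.exp (b + 1 + (K + C) ^ 2 / 4) * Γ0 := rfl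
      _ ≤ Real.exp (b + 1 + (K + C) ^ 2 / 4) * (Real.exp b * ‖F ((v1 : ℂ) + (t0 : ℂ) * I)‖) :=
          mul_le_mul_of_nonneg_left h4 (Real.exp_pos _).le
      _ = _ := by
          rw [← mul_assoc, ← Real.exp_add]
          congr 2
          ring
  · -- growth
    obtain ⟨Kb, hKb, hbd⟩ := k.strip 0 1
    refine ⟨0, by
      have := Real.pi_pos
      apply div_pos this
      linarith, 0, ?_⟩
    refine IsBigO.of_bound (Kb * Real.exp 1) ?_
    refine Filter.eventually_inf_principal.mpr (Eventually.of_forall fun z hz => ?_)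
    have hz1 : |z.re| ≤ 1 := by
      rw [abs_le]
      have h2 : z.re ∈ Ioo (-v1) v1 := hz
      constructor <;> linarith [h2.1, h2.2]
    simp only [hf, norm_mul, zero_mul, Real.exp_zero, norm_one, mul_one]
    rw [hnorm]
    refine mul_le_mul (hbd z hz1) ?_ (Real.exp_pos _).le hKb
    apply Real.exp_le_exp.mpr
    have h3 : z.re ^ 2 ≤ 1 := by rw [← sq_abs]; exact pow_le_one₀ (abs_nonneg _) hz1
    nlinarith [sq_nonneg (z.im - t0)]
  · intro z hz
    simp only [hf, norm_mul]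
    rw [hnorm]
    have e : z = -conj (-conj z) := by simp
    have h2 : ‖F z‖ = ‖F (-conj z)‖ := by
      rw [e, hfe, norm_mul, hε, one_mul, RCLike.norm_conj]
      simp
    have h3 := hright (-conj z) (by simp [hz])
    rw [h2]
    have e2 : (-conj z).re ^ 2 - ((-conj z).im - t0) ^ 2 = z.re ^ 2 - (z.im - t0) ^ 2 := by simp
    rw [← e2]
    exact h3
  · intro z hz
    simp only [hf, norm_mul]
    rw [hnorm]
    exact hright z hz
  · rw [cz_re]; linarith
  · rw [cz_re]; exact h1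

end Pool.Agent.H466.HF
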